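import Pool.Agent.Lib.MP_d46fce_co.General

/-!
A two-sided estimate of `h_m(n; k, l)` valid for every `l`.
-/

namespace Pool.Agent.Results.MP_d46fce_co.GeneralL

open Pool.Agent.Lib.MP_d46fce_co

theorem result (m n k l : ℕ) (hl : l < n) (h2 : m ≤ (2 * n + k).choose n) (F : ℝ)
    (hF : F = ((2 * n + k).choose (l + 1) : ℝ) / n.choose (l + 1)) :
    min (m : ℝ) (F / n.choose (l + 1)) ≤ hm m n k l ∧
      (hm m n k l : ℝ) ≤ 1 + F + F * Real.log (1 + m / F) := by
  refine ⟨?_, cover_upper m n k l hl F hF⟩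
  rw [hF, div_div, ← sq]
  exact packing_lower hl h2

end Pool.Agent.Results.MP_d46fce_co.GeneralL
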