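import Pool.Agent.Lib.MP_d46fce_co.DI.Fin2
import Pool.Agent.Lib.MP_d46fce_co.DI.KM
import Pool.Agent.Lib.MP_d46fce_co.DI.KJ
import Pool.Agent.Lib.MP_d46fce_co.DI.KA
import Pool.Agent.Lib.MP_d46fce_co.DI.Alt
import Pool.Agent.Lib.MP_d46fce_co.DI.KU
import Pool.Agent.Lib.MP_d46fce_co.DI.KL
import Pool.Agent.Lib.MP_d46fce_co.DI.Cube
import Pool.Agent.Lib.MP_d46fce_co.DI.Thick
import Pool.Agent.Lib.MP_d46fce_co.DI.Par
import Pool.Agent.Lib.MP_d46fce_co.DI.Gap

/-!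
A two-sided estimate of `h_m(n; k, l)` valid for all parameters, sharp up to a constant factor for
`k = O(l + 1)` and `n ≥ (l + 1) ^ 2`.
-/

namespace Pool.Agent.Results.MP_d46fce_co.LogFree

open Pool.Agent.Lib.MP_d46fce_co Pool.Agent.DI

theorem result : ∃ C : ℝ, 0 < C ∧ ∀ m n k l : ℕ, l < n → 1 ≤ m → m ≤ (2 * n + k).choose n →
    ∀ N u T L P : ℝ, N = 2 * n + k → u = k + l + 1 → T = (l + 1) * u →
      L = N / n * Real.log (1 + m / (N / n)) →
      P = min ((1 + u / n) ^ l) ((m : ℝ) ^ ((u / N) ^ 2)) →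
      max (max (min (T / Real.log (2 * (l + 1))) (1 + L / Real.log (2 + n / u)))
            (min ((l + 1 : ℝ) ^ 2) (1 + Real.log m / Real.log (2 + N /
              (min (l + 1 : ℝ) (Real.sqrt (1 + Real.log m)) * (l + 1))))))
          (max ((m : ℝ) ^ (T / (C * n * N))) (P ^ (1 / (C * Real.log (2 * N) ^ 5)))) / C ≤
        hm m n k l ∧
      (hm m n k l : ℝ) ≤
        C * P ^ C * min T (1 + L / Real.log (2 + n / (min (l + 1 : ℝ) (Real.sqrt (1 + L)) * u))) :=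
  final2_of (km_of (kc_of (ka_of alt_thm)) kj_thm)
    (klow_of (kl_of (cube_of (thick_of gap_thm par_thm)))) ku_thm

end Pool.Agent.Results.MP_d46fce_co.LogFree
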