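import Pool.Agent.Lib.MP_d46fce_co.Main

/-!
The least number of vertices of a subgraph of `G_(n,k,l)` with chromatic number at least `r + 2`.
-/

namespace Pool.Agent.Results.MP_d46fce_co.Thresholds

open Pool.Agent.Lib.MP_d46fce_co

theorem result (n k l r : ℕ) (hl : l < n) (hr : r ≤ k + l) :
    ∃ t : ℕ, IsLeast {m : ℕ | m ≤ (2 * n + k).choose n ∧ r + 2 ≤ hm m n k l} t ∧
      ((n : ℝ) / (3 * (k + 2 * l))) ^ r / r.factorial ≤ (t : ℝ) ∧
      (t : ℝ) < 2 * (36 * (((n : ℝ) - l) / (k + l + 1)) + 9) ^ r + 1 := by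
  classical
  have hne : ∃ m : ℕ, m ≤ (2 * n + k).choose n ∧ r + 2 ≤ hm m n k l :=
    ⟨_, le_rfl, top_lower hl hr⟩
  have hleast : IsLeast {m : ℕ | m ≤ (2 * n + k).choose n ∧ r + 2 ≤ hm m n k l} (Nat.find hne) :=
    ⟨Nat.find_spec hne, fun m hm' => Nat.find_min' hne hm'⟩
  refine ⟨Nat.find hne, hleast, ?_, ?_⟩
  · by_contra h
    have h1 := thr_upper (show 1 ≤ n by omega) (not_le.1 h)
    have h2 := hleast.1.2
    omega
  · set y : ℝ := 2 * (36 * (((n : ℝ) - l) / (k + l + 1)) + 9) ^ r with hy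
    have hln : (0 : ℝ) ≤ (n : ℝ) - l := sub_nonneg.2 (by exact_mod_cast hl.le)
    have hy0 : 0 ≤ y := by positivity
    have key : Nat.find hne ≤ ⌈y⌉₊ := by
      rcases le_total ⌈y⌉₊ ((2 * n + k).choose n) with h | h
      · refine hleast.2 ⟨h, thr_lower hl hr ?_ h⟩
        rw [Nat.cast_sub hl.le]
        push_cast
        exact Nat.le_ceil y
      · exact hleast.1.1.trans h
    exact lt_of_le_of_lt (Nat.cast_le.2 key) (Nat.ceil_lt_add_one hy0)

end Pool.Agent.Results.MP_d46fce_co.Thresholds
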